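import Pool.Agent.Q61.HP.Her

/-!
# The class of tensors and the integrated form
-/

set_option autoImplicit false

namespace Pool.Agent.Q61.HP

open Finset Pool.Agent.W666.GB Pool.Agent.Y489.SM Module MeasureTheory

variable {V : Type} [NormedAddCommGroup V] [InnerProductSpace ℝ V] {m : ℕ}

/-- `E - (1/2) ∑ k_j ∧ k_j` -/
def sumH {q : ℕ} (E : V → V → V → V → ℝ) (k : Fin q → V → V → ℝ) (x y z w : V) : ℝ :=
  E x y z w - ∑ j, (k j x z * k j y w - k j x w * k j y z)

theorem sumH_succ {q : ℕ} (E : V → V → V → V → ℝ) (k : Fin (q + 1) → V → V → ℝ) :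
    sumH E k = subH (sumH E fun j : Fin q => k j.castSucc) (k (Fin.last q)) := by
  funext x y z w
  simp only [sumH, subH, Fin.sum_univ_castSucc]
  ring

theorem sumH_zero (E : V → V → V → V → ℝ) (k : Fin 0 → V → V → ℝ) : sumH E k = E := by
  funext x y z w
  simp [sumH]

theorem sumH_all {E : V → V → V → V → ℝ} (hE : AlgCurv E) (hH : Hered E) (q : ℕ) :
    ∀ k : Fin q → V → V → ℝ, (∀ j, SemiForm (k j)) →
      AlgCurv (sumH E k) ∧ Hered (sumH E k) ∧
        ∀ (m : ℕ) (e : OrthonormalBasis (Fin m × Bool) ℝ V),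
          (-1) ^ m * gbc e E ≤ (-1) ^ m * gbc e (sumH E k) := by
  induction q with
  | zero =>
    intro k _
    rw [sumH_zero]
    exact ⟨hE, hH, fun m e => le_rfl⟩
  | succ q ih =>
    intro k hk
    obtain ⟨h1, h2, h3⟩ := ih (fun j => k j.castSucc) (fun j => hk j.castSucc)
    rw [sumH_succ]
    exact ⟨subH_curv h1 (hk _), h2.sub h1 (hk _),
      fun m e => (h3 m e).trans (sub_mono e h1 h2 (hk _))⟩

theorem class_bound (e : OrthonormalBasis (Fin m × Bool) ℝ V) (hm : 0 < m)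
    {E : V → V → V → V → ℝ} (hE : AlgCurv E) {h : V → V → ℝ} (hh : PosForm h) {ε : ℝ}
    (hε : 0 ≤ ε) (hε' : ε ≤ pc m) (hs : HClose h ε E) {q : ℕ} (k : Fin q → V → V → ℝ)
    (hk : ∀ j, SemiForm (k j)) :
    0 < (gram e h).det ∧
      4 / 5 * ((gram e h).det * roundGB m (1 - ε)) ≤ (-1) ^ m * gbc e (sumH E k) := by
  have h1 := close_two e hm hE hh hε hε' hs
  have h2 := sumH_all hE (hs.hered hE e hh hε hε') q k hk
  exact ⟨h1.1, h1.2.1.trans (h2.2.2 m e)⟩

theorem eps_lt {ε : ℝ} (hm : 0 < m) (hε' : ε ≤ pc m) : ε < 1 := by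
  have hk1 : (1 : ℝ) ≤ m := by exact_mod_cast hm
  have h4 : (1 : ℝ) ≤ Real.sqrt (2 * m) := by
    rw [Real.one_le_sqrt]; linarith
  have h5 : pc m ≤ 3 / 10 ^ 7 := by
    unfold pc
    rw [div_le_iff₀ (by linarith)]
    nlinarith
  have := hε'.trans h5
  norm_num at this
  linarith

/-- The class of curvature tensors: `R = E - (1/2) ∑ k_j ∧ k_j` with `E` close to `-(1/2) h ∧ h`
for an inner product `h` and nonnegative forms `k_j`. -/
def HopfClass (m : ℕ) (R : V → V → V → V → ℝ) : Prop :=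
  ∃ (E : V → V → V → V → ℝ) (h : V → V → ℝ) (ε : ℝ) (q : ℕ) (k : Fin q → V → V → ℝ),
    AlgCurv E ∧ PosForm h ∧ 0 ≤ ε ∧ ε ≤ pc m ∧ HClose h ε E ∧ (∀ j, SemiForm (k j)) ∧
      R = sumH E k

theorem HopfClass.pos (e : OrthonormalBasis (Fin m × Bool) ℝ V) (hm : 0 < m)
    {R : V → V → V → V → ℝ} (hR : HopfClass m R) : 0 < (-1) ^ m * gbc e R := by
  obtain ⟨E, h, ε, q, k, hE, hh, hε, hε', hs, hk, rfl⟩ := hR
  have h1 := class_bound e hm hE hh hε hε' hs k hk
  have h2 : 0 < roundGB m (1 - ε) := Pool.Agent.W666.GB.roundGB_pos (by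
    have := eps_lt hm hε'
    linarith)
  have := mul_pos h1.1 h2
  linarith [h1.2]

/-- pinched sectional curvatures -/
theorem pinched_ab (e : OrthonormalBasis (Fin m × Bool) ℝ V) (hm : 0 < m)
    {R : V → V → V → V → ℝ} (hR : AlgCurv R) {a b : ℝ} (ha : 0 < a) (hab : a ≤ b)
    (hp : b - a ≤ pc m * (a + b)) (hs : SecIn R (-b) (-a)) :
    HopfClass m R ∧ 4 / 5 * roundGB m a ≤ (-1) ^ m * gbc e R ∧
      (-1) ^ m * gbc e R ≤ 6 / 5 * roundGB m b := by
  set c : ℝ := (a + b) / 2 with hc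
  have hc0 : 0 < c := by rw [hc]; linarith
  set ε : ℝ := (b - a) / (a + b) with hε
  have hab0 : 0 < a + b := by linarith
  have hε0 : 0 ≤ ε := div_nonneg (by linarith) hab0.le
  have hε1 : ε ≤ pc m := by rw [hε, div_le_iff₀ hab0]; exact hp
  have e1 : (1 - ε) * c = a := by rw [hε, hc]; field_simp; ring
  have e2 : (1 + ε) * c = b := by rw [hε, hc]; field_simp; ring
  set s := Real.sqrt c with hs'
  have hs0 : 0 < s := Real.sqrt_pos.2 hc0
  have hss : s * s = c := Real.mul_self_sqrt hc0.le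
  set h : V → V → ℝ := fun x y => s * inner ℝ x y with hh
  have hpos : PosForm h := by
    refine ⟨⟨?_, ?_, ?_, ?_⟩, ?_⟩
    · intro x x' y; simp only [hh, inner_add_left]; ring
    · intro t x y; simp only [hh, inner_smul_left, conj_trivial]; ring
    · intro x y; simp only [hh]; rw [real_inner_comm]
    · intro x
      simp only [hh]
      exact mul_nonneg hs0.le real_inner_self_nonneg
    · intro x hx
      simp only [hh]
      exact mul_pos hs0 (real_inner_self_pos.2 hx)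
  have har : ∀ x y, ar h x y = c * (‖x‖ ^ 2 * ‖y‖ ^ 2 - inner ℝ x y ^ 2) := by
    intro x y
    simp only [ar, hh, real_inner_self_eq_norm_sq, ← hss]
    ring
  -- the pinching for all pairs
  have hall : ∀ x y, -(b * (‖x‖ ^ 2 * ‖y‖ ^ 2 - inner ℝ x y ^ 2)) ≤ R x y x y ∧
      R x y x y ≤ -(a * (‖x‖ ^ 2 * ‖y‖ ^ 2 - inner ℝ x y ^ 2)) := by
    intro x y
    by_cases hx : x = 0
    · have h0 : R x y x y = 0 := by
        have h1 := hR.smul 0 x y x y
        rw [zero_smul, zero_mul] at h1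
        rw [hx] at h1 ⊢
        exact h1
      rw [h0, hx]; simp
    have hx0 : 0 < ‖x‖ := norm_pos_iff.mpr hx
    set t : ℝ := inner ℝ x y / ‖x‖ ^ 2 with ht
    set y' := y - t • x with hy'
    have hS : R x y x y = R x y' x y' := by
      simp only [hy', hR.sub2, hR.sub4, hR.smul2, hR.smul4, hR.self12, hR.self34]
      ring
    have horth : inner ℝ x y' = (0 : ℝ) := by
      rw [hy', inner_sub_right, inner_smul_right, real_inner_self_eq_norm_sq, ht]
      field_simp
      ring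
    have hnorm : ‖x‖ ^ 2 * ‖y‖ ^ 2 - inner ℝ x y ^ 2 = ‖x‖ ^ 2 * ‖y'‖ ^ 2 := by
      have h2 : ‖y'‖ ^ 2 = ‖y‖ ^ 2 - 2 * t * inner ℝ x y + t ^ 2 * ‖x‖ ^ 2 := by
        rw [hy', norm_sub_sq_real, inner_smul_right, norm_smul, real_inner_comm, mul_pow,
          Real.norm_eq_abs, sq_abs]
        ring
      rw [h2, ht]
      field_simp
      ring
    rw [hnorm, hS]
    by_cases hy : y' = 0
    · have h0 : R x y' x y' = 0 := by
        have h1 := hR.smul2 0 x y' x y'
        rw [zero_smul, zero_mul] at h1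
        rw [hy] at h1 ⊢
        exact h1
      rw [h0, hy]; simp
    have hy0 : 0 < ‖y'‖ := norm_pos_iff.mpr hy
    have h4 := hs (‖x‖⁻¹ • x) (‖y'‖⁻¹ • y') (by rw [norm_smul, norm_inv, norm_norm]; field_simp)
      (by rw [norm_smul, norm_inv, norm_norm]; field_simp)
      (by rw [inner_smul_left, inner_smul_right, horth]; simp)
    rw [hR.smul, hR.smul2, hR.smul3, hR.smul4] at h4
    set r := R x y' x y'
    have h5 : ‖x‖⁻¹ * (‖y'‖⁻¹ * (‖x‖⁻¹ * (‖y'‖⁻¹ * r))) = r / (‖x‖ ^ 2 * ‖y'‖ ^ 2) := by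
      field_simp
    rw [h5] at h4
    have h6 : 0 < ‖x‖ ^ 2 * ‖y'‖ ^ 2 := by positivity
    rw [le_div_iff₀ h6, div_le_iff₀ h6] at h4
    constructor <;> linarith [h4.1, h4.2]
  have hclose : HClose h ε R := by
    intro x y
    have h1 := hall x y
    rw [har]
    constructor
    · rw [← mul_assoc, e2]; exact h1.1
    · rw [← mul_assoc, e1]; exact h1.2
  have h1 := close_two e hm hR hpos hε0 hε1 hclose
  have hdet : (gram e h).det = c ^ m := by
    have h2 : gram e h = s • (1 : Matrix (Fin m × Bool) (Fin m × Bool) ℝ) := by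
      ext i j
      simp only [gram, Matrix.of_apply, hh, inner_e, Matrix.smul_apply, Matrix.one_apply,
        smul_eq_mul]
    rw [h2, Matrix.det_smul, Matrix.det_one, mul_one, Fintype.card_prod, Fintype.card_fin,
      Fintype.card_bool, mul_comm m 2, pow_mul, pow_two, hss]
  have hr : ∀ t : ℝ, c ^ m * roundGB m t = roundGB m (t * c) := by
    intro t
    unfold roundGB
    rw [mul_pow]
    ring
  rw [hdet, hr, hr, e1, e2] at h1
  refine ⟨⟨R, h, ε, 0, fun j => j.elim0, hR, hpos, hε0, hε1, hclose, fun j => j.elim0, ?_⟩,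
    h1.2.1, h1.2.2⟩
  exact (sumH_zero R _).symm

/-- the Hilbert–Schmidt form, in an arbitrary frame -/
theorem frame_near (e : OrthonormalBasis (Fin m × Bool) ℝ V) {R : V → V → V → V → ℝ}
    (hR : AlgCurv R) (L : EuclideanSpace ℝ (Fin m × Bool) →ₗ[ℝ] V) {κ : ℝ} (hκ : 0 < κ)
    (h : Near (sb m) (pull R L) κ) :
    |e.toBasis.det (fun i => L (sb m i)) ^ 2 * ((-1) ^ m * gbc e R) - roundGB m κ| ≤
      1 / 5 * roundGB m κ ∧ 0 < (-1) ^ m * gbc e R := by
  have h1 := near_close (sb m) (pull_curv hR L) hκ h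
  have h2 := gbc_pull e (sb m) hR L
  have h3 : (-1) ^ m * gbc (sb m) (pull R L) =
      e.toBasis.det (fun i => L (sb m i)) ^ 2 * ((-1) ^ m * gbc e R) := by
    rw [h2]; ring
  rw [h3] at h1
  refine ⟨h1, ?_⟩
  have h4 := (abs_le.mp h1).1
  have h5 := Pool.Agent.W666.GB.roundGB_pos (m := m) hκ
  by_contra hn
  push Not at hn
  have h6 : e.toBasis.det (fun i => L (sb m i)) ^ 2 * ((-1) ^ m * gbc e R) ≤ 0 :=
    mul_nonpos_of_nonneg_of_nonpos (sq_nonneg _) hn
  linarith

/-- the integral -/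
theorem field_class {M : Type} [MeasurableSpace M] (μ : Measure M) (hm : 0 < m)
    (K : CurvField m M) (h : ∀ p, HopfClass m (K.R p)) :
    0 ≤ (-1) ^ m * ∫ p, K.gb p ∂μ ∧
      (Integrable K.gb μ → μ ≠ 0 → 0 < (-1) ^ m * ∫ p, K.gb p ∂μ) := by
  have h1 : ∀ p, 0 < (-1) ^ m * K.gb p := fun p => (h p).pos (K.e p) hm
  refine ⟨?_, fun hi hμ => ?_⟩
  · rw [← integral_const_mul]
    exact integral_nonneg fun p => (h1 p).le
  · rw [← integral_const_mul, integral_pos_iff_support_of_nonneg (fun p => (h1 p).le)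
      (hi.const_mul _)]
    have hsup : (Function.support fun p => (-1) ^ m * K.gb p) = Set.univ := by
      ext p
      simp only [Function.mem_support, Set.mem_univ, iff_true]
      exact (h1 p).ne'
    rw [hsup]
    exact Measure.measure_univ_pos.2 hμ

end Pool.Agent.Q61.HP
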