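import Pool.Agent.Q61.HP.Pull

/-!
# Positive definite forms and adapted frames
-/

set_option autoImplicit false

namespace Pool.Agent.Q61.HP

open Finset Pool.Agent.W666.GB Pool.Agent.Y489.SM Module

/-- symmetric bilinear forms which are nonnegative on the diagonal -/
structure SemiForm {V : Type} [AddCommGroup V] [Module ℝ V] (h : V → V → ℝ) : Prop where
  add : ∀ x x' y, h (x + x') y = h x y + h x' y
  smul : ∀ (t : ℝ) (x y : V), h (t • x) y = t * h x y
  symm : ∀ x y, h x y = h y x
  nonneg : ∀ x, 0 ≤ h x x

/-- inner products: symmetric bilinear forms which are positive definite -/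
structure PosForm {V : Type} [AddCommGroup V] [Module ℝ V] (h : V → V → ℝ) : Prop
    extends SemiForm h where
  pos : ∀ x, x ≠ 0 → 0 < h x x

/-- every inner product on a space of dimension `2 m` has an orthonormal frame -/
theorem exists_frame {W : Type} [AddCommGroup W] [Module ℝ W] {m : ℕ} [FiniteDimensional ℝ W]
    (hd : finrank ℝ W = 2 * m) {h : W → W → ℝ} (hh : PosForm h) :
    ∃ L : EuclideanSpace ℝ (Fin m × Bool) ≃ₗ[ℝ] W, ∀ x y, h (L x) (L y) = inner ℝ x y := by
  let c : InnerProductSpace.Core ℝ W :=
    { inner := h
      conj_inner_symm := fun x y => by simp only [conj_trivial]; exact hh.symm y x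
      re_inner_nonneg := fun x => by simpa using hh.nonneg x
      add_left := fun x y z => hh.add x y z
      smul_left := fun x y r => by simpa using hh.smul r x y
      definite := fun x hx => by
        by_contra hne
        exact (hh.pos x hne).ne' hx }
  letI : NormedAddCommGroup W := c.toNormedAddCommGroup
  letI : InnerProductSpace ℝ W := InnerProductSpace.ofCore c.toCore
  have hcard : Fintype.card (Fin m × Bool) = finrank ℝ W := by
    rw [hd, Fintype.card_prod, Fintype.card_fin, Fintype.card_bool, mul_comm]
  let b : OrthonormalBasis (Fin m × Bool) ℝ W :=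
    (stdOrthonormalBasis ℝ W).reindex (Fintype.equivOfCardEq (by simp [hcard]))
  refine ⟨b.repr.symm.toLinearEquiv, fun x y => ?_⟩
  have h1 := b.repr.symm.inner_map_map x y
  exact h1

end Pool.Agent.Q61.HP
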