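import Pool.Agent.Q61.HP.Near

/-!
# Tensors all of whose pull backs have the Hopf sign
-/

set_option autoImplicit false

namespace Pool.Agent.Q61.HP

open Finset Pool.Agent.W666.GB Pool.Agent.Y489.SM Module

variable {V : Type} [NormedAddCommGroup V] [InnerProductSpace ℝ V] {m : ℕ}

/-- all pull backs of `E` to spaces of positive even dimension have the Hopf sign -/
def Hered (E : V → V → V → V → ℝ) : Prop :=
  ∀ (k : ℕ) (L : EuclideanSpace ℝ (Fin k × Bool) →ₗ[ℝ] V), 0 < k →
    0 ≤ (-1) ^ k * gbc (sb k) (pull E L)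

theorem Hered.pull {W : Type} [NormedAddCommGroup W] [InnerProductSpace ℝ W]
    {E : V → V → V → V → ℝ} (hE : Hered E) (L : W →ₗ[ℝ] V) :
    Hered (Pool.Agent.Y489.SM.pull E L) :=
  fun k M hk => hE k (L ∘ₗ M) hk

/-- the term of the expansion which belongs to the set `T` of blocks -/
noncomputable def aT (e : OrthonormalBasis (Fin m × Bool) ℝ V) (E : V → V → V → V → ℝ)
    (T : Finset (Fin m)) : ℝ :=
  ∑ σ : Equiv.Perm (Fin m × Bool), yf (pb (Cl (EE e E 0)) (σ ∘ iT T))

theorem shift_expand (e : OrthonormalBasis (Fin m × Bool) ℝ V) {E : V → V → V → V → ℝ}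
    (hE : AlgCurv E) (c : ℝ) :
    (-1) ^ m * gbc e (shift c E) = 2 ^ m / ((8 * Real.pi) ^ m * m.factorial) *
      ∑ T : Finset (Fin m), c ^ (Fintype.card (Fin m) - T.card) * aT e E T := by
  have hEE : EE e (shift c E) c = EE e E 0 := by
    funext i j k l
    simp only [EE, shift, unitCurv, inner_e]
    ring
  rw [neg_gbc_eq e (shift_curv hE c) c, hEE, Yf_expand]
  rfl

theorem aT_nonneg (e : OrthonormalBasis (Fin m × Bool) ℝ V) {E : V → V → V → V → ℝ}
    (hE : AlgCurv E) (hk : Hered E) (T : Finset (Fin m)) : 0 ≤ aT e E T := by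
  set C : Fin m × Bool → Fin m × Bool → Fin m × Bool → Fin m × Bool → ℝ :=
    Cl (EE e E 0) with hC
  rcases T.eq_empty_or_nonempty with hT0 | hTne
  · subst hT0
    have h1 : ∀ σ : Equiv.Perm (Fin m × Bool),
        yf (pb C (σ ∘ iT (∅ : Finset (Fin m)))) = 1 := by
      intro σ
      have hem : IsEmpty ((∅ : Finset (Fin m)) × Bool) :=
        ⟨fun a => absurd a.1.2 (Finset.notMem_empty _)⟩
      have hem' : IsEmpty ((∅ : Finset (Fin m))) := ⟨fun a => absurd a.2 (Finset.notMem_empty _)⟩
      have h2 : ∀ ρ : Equiv.Perm ((∅ : Finset (Fin m)) × Bool), sn ρ = 1 := by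
        intro ρ
        rw [Subsingleton.elim ρ 1, sn_one]
      rw [yf]
      have hu : Unique (Equiv.Perm ((∅ : Finset (Fin m)) × Bool)) := Equiv.permUnique
      rw [Fintype.sum_unique, Fintype.prod_empty, mul_one, h2]
    unfold aT
    rw [← hC]
    simp only [h1]
    positivity
  unfold aT
  rw [← hC]
  have h1 := sum_perm_eq (P := T × Bool) (J := Fin m × Bool) (fun i => yf (pb C i))
    (fun i hi => yf_noninj C i hi) (iT T) (iT_injective T)
  have h2 := sum_Yf (T := T) (J := Fin m × Bool) C
  have h3 : 0 ≤ ∑ i : T × Bool → Fin m × Bool, Yf (pb C i) := by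
    refine Finset.sum_nonneg fun i _ => ?_
    set k := Fintype.card T with hkdef
    have hkpos : 0 < k := by
      rw [hkdef]
      simpa using hTne
    set f : T ≃ Fin k := Fintype.equivFin T with hf
    set u : Fin k × Bool → V := fun a => e (i (f.symm a.1, a.2)) with hu
    set L : EuclideanSpace ℝ (Fin k × Bool) →ₗ[ℝ] V :=
      ((sb k).toBasis.constr ℝ u) with hL
    have hLe : ∀ a, L (sb k a) = u a := by
      intro a
      have := (sb k).toBasis.constr_basis ℝ u a
      rw [OrthonormalBasis.coe_toBasis] at this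
      exact this
    have h4 := hk k L hkpos
    rw [neg_gbc_eq (sb k) (pull_curv hE L) 0] at h4
    have h5 : (fun a b c d : Fin k × Bool => 0 * (if a = b then (1 : ℝ) else 0) *
        (if c = d then 1 else 0) + Cl (EE (sb k) (Pool.Agent.Y489.SM.pull E L) 0) a b c d) =
        pb (pb C i) (fun a : Fin k × Bool => (f.symm a.1, a.2)) := by
      funext a b c' d
      simp only [Cl, EE, Pool.Agent.Y489.SM.pull, hLe, pb, hC, hu]
      ring
    rw [h5, Yf_reindex f.symm (pb C i)] at h4
    have h6 : (0 : ℝ) < 2 ^ k / ((8 * Real.pi) ^ k * k.factorial) := by positivity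
    exact nonneg_of_mul_nonneg_right h4 h6
  have h4 : 0 ≤ ∑ i : T × Bool → Fin m × Bool, yf (pb C i) := by
    rw [h2] at h3
    have : (0 : ℝ) < (Fintype.card (T × Bool)).factorial := by positivity
    exact nonneg_of_mul_nonneg_right h3 this
  have h5 : (0 : ℝ) < ((Fintype.card (Fin m × Bool)).descFactorial (Fintype.card (T × Bool)) :
      ℝ) := by
    have h6 : Fintype.card (T × Bool) ≤ Fintype.card (Fin m × Bool) :=
      Fintype.card_le_of_injective _ (iT_injective T)
    have h7 : 0 < (Fintype.card (Fin m × Bool)).descFactorial (Fintype.card (T × Bool)) := by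
      rw [Nat.pos_iff_ne_zero, Ne, Nat.descFactorial_eq_zero_iff_lt]
      omega
    exact_mod_cast h7
  have h6 : 0 ≤ ((Fintype.card (Fin m × Bool)).descFactorial (Fintype.card (T × Bool)) : ℝ) *
      ∑ σ : Equiv.Perm (Fin m × Bool), yf (pb C (σ ∘ iT T)) := by
    rw [h1]
    positivity
  exact nonneg_of_mul_nonneg_right h6 h5

/-- subtracting a tensor of constant curvature does not decrease the integrand -/
theorem shift_mono (e : OrthonormalBasis (Fin m × Bool) ℝ V) {E : V → V → V → V → ℝ}
    (hE : AlgCurv E) (hk : Hered E) {c : ℝ} (hc : 0 ≤ c) :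
    (-1) ^ m * gbc e E ≤ (-1) ^ m * gbc e (shift c E) := by
  have h0 : shift 0 E = E := by
    funext x y z w
    simp only [shift]
    ring
  have h1 := shift_expand e hE 0
  rw [h0] at h1
  rw [h1, shift_expand e hE c]
  have hπ := Real.pi_pos
  refine mul_le_mul_of_nonneg_left (Finset.sum_le_sum fun T _ => ?_) (by positivity)
  refine mul_le_mul_of_nonneg_right ?_ (aT_nonneg e hE hk T)
  rcases Nat.eq_zero_or_pos (Fintype.card (Fin m) - T.card) with h | h
  · rw [h, pow_zero, pow_zero]
  · rw [zero_pow h.ne']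
    exact pow_nonneg hc _

/-- `E - (1/2) k ∧ k` -/
def subH (E : V → V → V → V → ℝ) (k : V → V → ℝ) (x y z w : V) : ℝ :=
  E x y z w - (k x z * k y w - k x w * k y z)

theorem subH_curv {E : V → V → V → V → ℝ} (hE : AlgCurv E) {k : V → V → ℝ} (hk : SemiForm k) :
    AlgCurv (subH E k) where
  add x x' y z w := by simp only [subH, hE.add, hk.add]; ring
  smul t x y z w := by simp only [subH, hE.smul, hk.smul]; ring
  anti x y z w := by simp only [subH, hE.anti x y]; ring
  pair x y z w := by
    simp only [subH, hE.pair x y z w]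
    rw [hk.symm z x, hk.symm w y, hk.symm z y, hk.symm w x]
    ring
  bianchi x y z w := by
    have := hE.bianchi x y z w
    simp only [subH]
    rw [hk.symm z x, hk.symm y x, hk.symm z y]
    linarith

/-- subtracting `(1/2) k ∧ k` for a positive definite `k` -/
theorem sub_pos_mono (e : OrthonormalBasis (Fin m × Bool) ℝ V) {E : V → V → V → V → ℝ}
    (hE : AlgCurv E) (hk : Hered E) {k : V → V → ℝ} (hp : PosForm k) :
    (-1) ^ m * gbc e E ≤ (-1) ^ m * gbc e (subH E k) := by
  have hfin : FiniteDimensional ℝ V := Module.Finite.of_basis e.toBasis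
  have hcard : finrank ℝ V = 2 * m := by
    rw [finrank_eq_card_basis e.toBasis, Fintype.card_prod, Fintype.card_fin, Fintype.card_bool,
      mul_comm]
  obtain ⟨L, hL⟩ := exists_frame hcard hp
  have h1 := gbc_frame e hp.toSemiForm (L := L.toLinearMap) hL hE
  have h2 := gbc_frame e hp.toSemiForm (L := L.toLinearMap) hL (subH_curv hE hp.toSemiForm)
  have h3 : Pool.Agent.Y489.SM.pull (subH E k) L.toLinearMap =
      shift 1 (Pool.Agent.Y489.SM.pull E L.toLinearMap) := by
    funext x y z w
    simp only [Pool.Agent.Y489.SM.pull, subH, shift, LinearEquiv.coe_coe, hL]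
    ring
  have h4 := shift_mono (sb m) (pull_curv hE L.toLinearMap) (hk.pull L.toLinearMap)
    (zero_le_one (α := ℝ))
  rw [h1.2, h2.2, h3]
  calc (-1) ^ m * ((gram e k).det * gbc (sb m) (Pool.Agent.Y489.SM.pull E L.toLinearMap))
      = (gram e k).det * ((-1) ^ m * gbc (sb m) (Pool.Agent.Y489.SM.pull E L.toLinearMap)) := by
        ring
    _ ≤ (gram e k).det * ((-1) ^ m *
        gbc (sb m) (shift 1 (Pool.Agent.Y489.SM.pull E L.toLinearMap))) :=
        mul_le_mul_of_nonneg_left h4 h1.1.le
    _ = _ := by ring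

/-- the same for nonnegative forms, by approximation -/
theorem sub_mono (e : OrthonormalBasis (Fin m × Bool) ℝ V) {E : V → V → V → V → ℝ}
    (hE : AlgCurv E) (hk : Hered E) {k : V → V → ℝ} (hp : SemiForm k) :
    (-1) ^ m * gbc e E ≤ (-1) ^ m * gbc e (subH E k) := by
  set kd : ℝ → V → V → ℝ := fun δ x y => k x y + δ * inner ℝ x y with hkd
  have hpos : ∀ δ : ℝ, 0 < δ → PosForm (kd δ) := by
    intro δ hδ
    refine ⟨⟨?_, ?_, ?_, ?_⟩, ?_⟩
    · intro x x' y; simp only [hkd, hp.add, inner_add_left]; ring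
    · intro t x y; simp only [hkd, hp.smul, inner_smul_left, conj_trivial]; ring
    · intro x y; simp only [hkd]; rw [hp.symm, real_inner_comm]
    · intro x
      simp only [hkd]
      have := hp.nonneg x
      have h2 : 0 ≤ inner ℝ x x := real_inner_self_nonneg
      positivity
    · intro x hx
      simp only [hkd]
      have := hp.nonneg x
      have h2 : 0 < inner ℝ x x := real_inner_self_pos.2 hx
      have h3 : 0 < δ * inner ℝ x x := mul_pos hδ h2
      linarith
  have hcont : Continuous fun δ : ℝ => (-1) ^ m * gbc e (subH E (kd δ)) := by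
    simp only [gbc, subH, hkd]
    fun_prop
  have h0 : kd 0 = k := by
    funext x y
    simp only [hkd]
    ring
  have h1 : Filter.Tendsto (fun δ : ℝ => (-1) ^ m * gbc e (subH E (kd δ)))
      (nhdsWithin 0 (Set.Ioi 0)) (nhds ((-1) ^ m * gbc e (subH E (kd 0)))) :=
    (hcont.tendsto 0).mono_left nhdsWithin_le_nhds
  rw [h0] at h1
  refine ge_of_tendsto h1 ?_
  filter_upwards [self_mem_nhdsWithin] with δ hδ
  exact sub_pos_mono e hE hk (hpos δ hδ)

theorem Hered.sub {E : V → V → V → V → ℝ} (hE : AlgCurv E) (hk : Hered E) {k : V → V → ℝ}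
    (hp : SemiForm k) : Hered (subH E k) := by
  intro j L hj
  have h1 := sub_mono (sb j) (pull_curv hE L) (hk.pull L) (hp.pull L)
  exact (hk j L hj).trans h1

/-- a degenerate pull back has vanishing integrand -/
theorem gbc_degenerate (e : OrthonormalBasis (Fin m × Bool) ℝ V) {R : V → V → V → V → ℝ}
    (hR : AlgCurv R) {k : ℕ} {L : EuclideanSpace ℝ (Fin k × Bool) →ₗ[ℝ] V}
    (hL : ¬ Function.Injective L) : gbc (sb k) (Pool.Agent.Y489.SM.pull R L) = 0 := by
  have h1 : LinearMap.ker L ≠ ⊥ := by
    intro h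
    exact hL (LinearMap.ker_eq_bot.1 h)
  obtain ⟨x, hx, hx0⟩ := Submodule.exists_mem_ne_zero_of_ne_bot h1
  have hLx : L x = 0 := LinearMap.mem_ker.1 hx
  set N : EuclideanSpace ℝ (Fin k × Bool) →ₗ[ℝ] EuclideanSpace ℝ (Fin k × Bool) :=
    LinearMap.id - ((innerₛₗ ℝ x).smulRight ((inner ℝ x x : ℝ)⁻¹ • x)) with hN
  have hNx : N x = 0 := by
    have hxx : (inner ℝ x x : ℝ) ≠ 0 := by
      rw [real_inner_self_eq_norm_sq]
      exact pow_ne_zero 2 (norm_ne_zero_iff.2 hx0)
    simp only [hN, LinearMap.sub_apply, LinearMap.id_apply, LinearMap.smulRight_apply,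
      innerₛₗ_apply_apply, smul_smul]
    rw [mul_inv_cancel₀ hxx, one_smul, sub_self]
  have hLN : ∀ y, L (N y) = L y := by
    intro y
    simp only [hN, LinearMap.sub_apply, LinearMap.id_apply, LinearMap.smulRight_apply, map_sub,
      map_smul, hLx, smul_zero, sub_zero]
  have h2 : Pool.Agent.Y489.SM.pull R L =
      Pool.Agent.Y489.SM.pull (Pool.Agent.Y489.SM.pull R L) N := by
    funext y z w u
    simp only [Pool.Agent.Y489.SM.pull, hLN]
  have h3 : (sb k).toBasis.det (fun i => N (sb k i)) = 0 := by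
    have h4 := (sb k).toBasis.det_comp N (sb k).toBasis
    have h5 : LinearMap.det N = 0 := by
      by_contra hne
      have hu : IsUnit (LinearMap.det N) := isUnit_iff_ne_zero.2 hne
      have h9 : (LinearMap.equivOfIsUnitDet hu) x = 0 := by
        rw [← hNx]
        exact LinearMap.equivOfIsUnitDet_apply hu x
      exact hx0 ((LinearEquiv.map_eq_zero_iff _).1 h9)
    rw [h5, zero_mul] at h4
    rw [OrthonormalBasis.coe_toBasis] at h4
    exact h4
  rw [h2, gbc_pull (sb k) (sb k) (pull_curv hR L) N, h3]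
  ring

theorem HClose.hered {E : V → V → V → V → ℝ} (hE : AlgCurv E)
    (e : OrthonormalBasis (Fin m × Bool) ℝ V) {h : V → V → ℝ} (hh : PosForm h) {ε : ℝ}
    (hε : 0 ≤ ε) (hε' : ε ≤ pc m) (hs : HClose h ε E) : Hered E := by
  intro k L hk
  by_cases hL : Function.Injective L
  · have hkm : k ≤ m := by
      have hfin : FiniteDimensional ℝ V := Module.Finite.of_basis e.toBasis
      have h1 := LinearMap.finrank_le_finrank_of_injective hL
      rw [finrank_eq_card_basis e.toBasis, finrank_eq_card_basis (sb k).toBasis] at h1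
      simp only [Fintype.card_prod, Fintype.card_fin, Fintype.card_bool] at h1
      omega
    have hpc : pc m ≤ pc k := by
      unfold pc
      have hk1 : (1 : ℝ) ≤ k := by exact_mod_cast hk
      have hkm' : (k : ℝ) ≤ m := by exact_mod_cast hkm
      have h2 : 0 < Real.sqrt (2 * k) := Real.sqrt_pos.2 (by linarith)
      have h3 : Real.sqrt (2 * k) ≤ Real.sqrt (2 * m) := Real.sqrt_le_sqrt (by linarith)
      exact div_le_div_of_nonneg_left (by norm_num) h2 h3
    have h2 := close_two (sb k) hk (pull_curv hE L) (hh.pull hL) hε (hε'.trans hpc) (hs.pull L)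
    refine le_trans ?_ h2.2.1
    have hε1 : ε ≤ 1 := by
      have hk1 : (1 : ℝ) ≤ k := by exact_mod_cast hk
      have h4 : (1 : ℝ) ≤ Real.sqrt (2 * k) := by
        rw [Real.one_le_sqrt]; linarith
      have h5 : pc k ≤ 3 / 10 ^ 7 := by
        unfold pc
        rw [div_le_iff₀ (by linarith)]
        nlinarith
      have := hε'.trans (hpc.trans h5)
      norm_num at this
      linarith
    have h6 : 0 ≤ roundGB k (1 - ε) := by
      unfold roundGB
      have hπ := Real.pi_pos
      have : 0 ≤ 1 - ε := by linarith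
      positivity
    have := mul_nonneg h2.1.le h6
    linarith
  · rw [gbc_degenerate e hE hL, mul_zero]

end Pool.Agent.Q61.HP
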