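import Pool.Agent.Q61.HP.Form

/-!
# Curvature tensors close to `-(1/2) h ∧ h`
-/

set_option autoImplicit false

namespace Pool.Agent.Q61.HP

open Finset Pool.Agent.W666.GB Pool.Agent.Y489.SM Module

section forms

variable {V : Type} [AddCommGroup V] [Module ℝ V]

/-- the squared area of the parallelogram of `x, y` for the form `h` -/
def ar (h : V → V → ℝ) (x y : V) : ℝ := h x x * h y y - h x y ^ 2

/-- `R` is close to the tensor `-(1/2) h ∧ h`: its sectional curvatures, computed with the areas of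
`h`, lie in `[-(1 + ε), -(1 - ε)]` -/
def HClose (h : V → V → ℝ) (ε : ℝ) (R : V → V → V → V → ℝ) : Prop :=
  ∀ x y, -((1 + ε) * ar h x y) ≤ R x y x y ∧ R x y x y ≤ -((1 - ε) * ar h x y)

theorem SemiForm.add2 {h : V → V → ℝ} (hh : SemiForm h) (x y y' : V) :
    h x (y + y') = h x y + h x y' := by
  rw [hh.symm, hh.add, hh.symm y, hh.symm y']

theorem SemiForm.smul2 {h : V → V → ℝ} (hh : SemiForm h) (t : ℝ) (x y : V) :
    h x (t • y) = t * h x y := by
  rw [hh.symm, hh.smul, hh.symm y]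

/-- the form as a bilinear map -/
def SemiForm.bil {h : V → V → ℝ} (hh : SemiForm h) : V →ₗ[ℝ] V →ₗ[ℝ] ℝ :=
  LinearMap.mk₂ ℝ h hh.add (fun t x y => hh.smul t x y) hh.add2 (fun t x y => hh.smul2 t x y)

theorem SemiForm.bil_apply {h : V → V → ℝ} (hh : SemiForm h) (x y : V) : hh.bil x y = h x y := rfl

/-- pull back of a form -/
def hpull {W : Type} [AddCommGroup W] [Module ℝ W] (h : V → V → ℝ) (L : W →ₗ[ℝ] V) (x y : W) : ℝ :=
  h (L x) (L y)

theorem SemiForm.pull {W : Type} [AddCommGroup W] [Module ℝ W] {h : V → V → ℝ} (hh : SemiForm h)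
    (L : W →ₗ[ℝ] V) : SemiForm (hpull h L) where
  add x x' y := by simp only [hpull, map_add, hh.add]
  smul t x y := by simp only [hpull, map_smul, hh.smul]
  symm x y := hh.symm _ _
  nonneg x := hh.nonneg _

theorem PosForm.pull {W : Type} [AddCommGroup W] [Module ℝ W] {h : V → V → ℝ} (hh : PosForm h)
    {L : W →ₗ[ℝ] V} (hL : Function.Injective L) : PosForm (hpull h L) where
  toSemiForm := hh.toSemiForm.pull L
  pos x hx := hh.pos _ (by
    intro h0
    exact hx (hL (by rw [h0, map_zero])))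

theorem HClose.pull {W : Type} [AddCommGroup W] [Module ℝ W] {h : V → V → ℝ} {ε : ℝ}
    {R : V → V → V → V → ℝ} (hR : HClose h ε R) (L : W →ₗ[ℝ] V) :
    HClose (hpull h L) ε (fun x y z w => R (L x) (L y) (L z) (L w)) :=
  fun x y => hR (L x) (L y)

end forms

variable {V : Type} [NormedAddCommGroup V] [InnerProductSpace ℝ V] {m : ℕ}

/-- the Gram matrix of a form in an orthonormal basis -/
noncomputable def gram (e : OrthonormalBasis (Fin m × Bool) ℝ V) (h : V → V → ℝ) :
    Matrix (Fin m × Bool) (Fin m × Bool) ℝ :=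
  Matrix.of fun i j => h (e i) (e j)

theorem det_frame (e : OrthonormalBasis (Fin m × Bool) ℝ V) {h : V → V → ℝ} (hh : SemiForm h)
    {L : EuclideanSpace ℝ (Fin m × Bool) →ₗ[ℝ] V} (hL : ∀ x y, h (L x) (L y) = inner ℝ x y) :
    e.toBasis.det (fun i => L (sb m i)) ^ 2 * (gram e h).det = 1 := by
  set M : Matrix (Fin m × Bool) (Fin m × Bool) ℝ := e.toBasis.toMatrix (fun i => L (sb m i)) with hM
  have h1 : M.transpose * gram e h * M = 1 := by
    ext j k
    have e1 : ∀ j, L (sb m j) = ∑ a, M a j • e a := by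
      intro j
      have := e.toBasis.sum_toMatrix_smul_self (fun i => L (sb m i)) j
      rw [← this]
      simp [hM]
    have e2 : h (L (sb m j)) (L (sb m k)) = ∑ a, ∑ b, M a j * M b k * h (e a) (e b) := by
      rw [e1 j, e1 k, ← hh.bil_apply]
      simp only [map_sum, LinearMap.sum_apply, map_smul, LinearMap.smul_apply, smul_eq_mul,
        hh.bil_apply, Finset.mul_sum]
      rw [Finset.sum_comm]
      exact Finset.sum_congr rfl fun a _ => Finset.sum_congr rfl fun b _ => by ring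
    have e3 : h (L (sb m j)) (L (sb m k)) = if j = k then 1 else 0 := by
      rw [hL]
      exact orthonormal_iff_ite.mp (sb m).orthonormal j k
    rw [Matrix.mul_apply, Matrix.one_apply, ← e3, e2]
    simp only [Matrix.mul_apply, Matrix.transpose_apply, gram, Matrix.of_apply, Finset.sum_mul]
    rw [Finset.sum_comm]
    exact Finset.sum_congr rfl fun a _ => Finset.sum_congr rfl fun b _ => by ring
  have h2 := congrArg Matrix.det h1
  rw [Matrix.det_mul, Matrix.det_mul, Matrix.det_transpose, Matrix.det_one] at h2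
  have h3 : e.toBasis.det (fun i => L (sb m i)) = M.det := rfl
  rw [h3]
  linarith [h2]

theorem gbc_frame (e : OrthonormalBasis (Fin m × Bool) ℝ V) {h : V → V → ℝ} (hh : SemiForm h)
    {L : EuclideanSpace ℝ (Fin m × Bool) →ₗ[ℝ] V} (hL : ∀ x y, h (L x) (L y) = inner ℝ x y)
    {R : V → V → V → V → ℝ} (hR : AlgCurv R) :
    0 < (gram e h).det ∧ gbc e R = (gram e h).det * gbc (sb m) (pull R L) := by
  have h1 := det_frame e hh hL
  have h2 := gbc_pull e (sb m) hR L
  have h3 : 0 < (gram e h).det := by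
    have h4 : 0 < e.toBasis.det (fun i => L (sb m i)) ^ 2 := by
      refine lt_of_le_of_ne (sq_nonneg _) fun h0 => ?_
      rw [← h0, zero_mul] at h1
      exact zero_ne_one h1
    by_contra hn
    push Not at hn
    nlinarith
  refine ⟨h3, ?_⟩
  rw [h2, ← mul_assoc, mul_comm (gram e h).det, h1, one_mul]

/-- the pinching constant -/
noncomputable def pc (m : ℕ) : ℝ := 3 / 10 ^ 7 / Real.sqrt (2 * m)

theorem roundGB_mono {a b : ℝ} (ha : 0 ≤ a) (hab : a ≤ b) : roundGB m a ≤ roundGB m b := by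
  unfold roundGB
  have hπ := Real.pi_pos
  exact mul_le_mul_of_nonneg_left (pow_le_pow_left₀ ha hab m) (by positivity)

/-- two-sided bound for sectional curvatures in `[-(1 + ε), -(1 - ε)]` -/
theorem pinched_two (e : OrthonormalBasis (Fin m × Bool) ℝ V) {R : V → V → V → V → ℝ}
    (hm : 0 < m) (hR : AlgCurv R) {ε : ℝ} (hε : 0 ≤ ε) (hε' : ε ≤ pc m)
    (hs : SecIn R (-(1 + ε)) (-(1 - ε))) :
    4 / 5 * roundGB m (1 - ε) ≤ (-1) ^ m * gbc e R ∧
      (-1) ^ m * gbc e R ≤ 6 / 5 * roundGB m (1 + ε) := by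
  have hm1 : (1 : ℝ) ≤ m := by exact_mod_cast hm
  obtain ⟨h1, h2⟩ := sec_bounds e hm hR hs
  set κ : ℝ := -scal e R / (2 * m * (2 * m - 1)) with hκ
  have hpos : (0 : ℝ) < 2 * m * (2 * m - 1) := by nlinarith
  set q := Real.sqrt (2 * m) with hq
  have hq1 : 1 ≤ q := by
    rw [hq, Real.one_le_sqrt]; linarith
  have hεq : ε * q ≤ 3 / 10 ^ 7 := by
    have : ε ≤ 3 / 10 ^ 7 / q := hε'
    rwa [le_div_iff₀ (by linarith)] at this
  have hε1 : ε ≤ 3 / 10 ^ 7 := by nlinarith
  have hκ0 : 0 < κ := by norm_num at hε1; linarith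
  have hsc : scal e R = -(κ * (2 * m * (2 * m - 1))) := by
    rw [hκ, div_mul_cancel₀ _ hpos.ne', neg_neg]
  set δ : ℝ := 3 / 4 * (1 / 10 ^ 6) / q with hδ
  have hδq : δ * q = 3 / 4 * (1 / 10 ^ 6) := by
    rw [hδ, div_mul_cancel₀ _ (by linarith)]
  have hδ0 : 0 < δ := by rw [hδ]; positivity
  have hδε : 5 / 2 * ε ≤ δ := by
    have : 5 / 2 * ε * q ≤ δ * q := by rw [hδq]; norm_num at hεq ⊢; linarith
    exact le_of_mul_le_mul_right this (by linarith)
  have hδ1 : δ ≤ 1 / 10 ^ 6 := by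
    have : δ * 1 ≤ δ * q := mul_le_mul_of_nonneg_left hq1 hδ0.le
    rw [hδq] at this
    norm_num at this ⊢
    linarith
  have hnear : Near e R κ := by
    refine ⟨hsc, Or.inr ?_⟩
    intro x y hx hy hxy
    have h3 := hs x y hx hy hxy
    rw [← hq, ← hδ]
    norm_num at hδ1 hε1
    constructor
    · refine le_trans ?_ h3.1
      nlinarith
    · refine h3.2.trans ?_
      nlinarith
  have h6 := near_close e hR hκ0 hnear
  have h7 : roundGB m (1 - ε) ≤ roundGB m κ := roundGB_mono (by norm_num at hε1; linarith) h1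
  have h8 : roundGB m κ ≤ roundGB m (1 + ε) := roundGB_mono hκ0.le h2
  have h9 := abs_le.mp h6
  constructor <;> linarith

theorem HClose.secIn {h : V → V → ℝ} {ε : ℝ} {R : V → V → V → V → ℝ} (hR : HClose h ε R)
    {L : EuclideanSpace ℝ (Fin m × Bool) →ₗ[ℝ] V} (hL : ∀ x y, h (L x) (L y) = inner ℝ x y) :
    SecIn (Pool.Agent.Y489.SM.pull R L) (-(1 + ε)) (-(1 - ε)) := by
  intro x y hx hy hxy
  have h1 := hR (L x) (L y)
  have h2 : ar h (L x) (L y) = 1 := by
    rw [ar, hL, hL, hL, hxy, real_inner_self_eq_norm_sq, real_inner_self_eq_norm_sq, hx, hy]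
    norm_num
  rw [h2, mul_one, mul_one] at h1
  exact h1

/-- **Tensors close to `-(1/2) h ∧ h`.** -/
theorem close_two (e : OrthonormalBasis (Fin m × Bool) ℝ V) {R : V → V → V → V → ℝ}
    (hm : 0 < m) (hR : AlgCurv R) {h : V → V → ℝ} (hh : PosForm h) {ε : ℝ} (hε : 0 ≤ ε)
    (hε' : ε ≤ pc m) (hs : HClose h ε R) :
    0 < (gram e h).det ∧
    4 / 5 * ((gram e h).det * roundGB m (1 - ε)) ≤ (-1) ^ m * gbc e R ∧
      (-1) ^ m * gbc e R ≤ 6 / 5 * ((gram e h).det * roundGB m (1 + ε)) := by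
  have hfin : FiniteDimensional ℝ V := Module.Finite.of_basis e.toBasis
  have hcard : finrank ℝ V = 2 * m := by
    rw [finrank_eq_card_basis e.toBasis, Fintype.card_prod, Fintype.card_fin, Fintype.card_bool,
      mul_comm]
  obtain ⟨L, hL⟩ := exists_frame hcard hh
  have h1 := gbc_frame e hh.toSemiForm (L := L.toLinearMap) hL hR
  have h2 := pinched_two (sb m) hm (pull_curv hR L.toLinearMap) hε hε' (hs.secIn hL)
  refine ⟨h1.1, ?_⟩
  have e1 : (-1) ^ m * gbc e R =
      (gram e h).det * ((-1) ^ m * gbc (sb m) (pull R L.toLinearMap)) := by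
    rw [h1.2]; ring
  rw [e1]
  constructor
  · calc 4 / 5 * ((gram e h).det * roundGB m (1 - ε))
        = (gram e h).det * (4 / 5 * roundGB m (1 - ε)) := by ring
      _ ≤ _ := mul_le_mul_of_nonneg_left h2.1 h1.1.le
  · calc (gram e h).det * ((-1) ^ m * gbc (sb m) (pull R L.toLinearMap))
        ≤ (gram e h).det * (6 / 5 * roundGB m (1 + ε)) := mul_le_mul_of_nonneg_left h2.2 h1.1.le
      _ = _ := by ring

end Pool.Agent.Q61.HP
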