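import Pool.Agent.Y489.SM.Ex

/-!
# The Gauss–Bonnet–Chern integrand under linear changes of the frame
-/

set_option autoImplicit false

namespace Pool.Agent.Q61.HP

open Finset Pool.Agent.W666.GB Pool.Agent.Y489.SM

variable {V : Type} [NormedAddCommGroup V] [InnerProductSpace ℝ V] {m : ℕ}

/-- the product in the integrand as a multilinear map in the first family -/
noncomputable def pm {R : V → V → V → V → ℝ} (hR : AlgCurv R) (w : Fin m × Bool → V) :
    MultilinearMap ℝ (fun _ : Fin m × Bool => V) ℝ where
  toFun v := ∏ b : Fin m, R (v (b, false)) (v (b, true)) (w (b, false)) (w (b, true))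
  map_update_add' := by
    intro _ v i x y
    obtain ⟨b0, β⟩ := i
    have key : ∀ z : V, ∏ b ∈ univ.erase b0, R (Function.update v (b0, β) z (b, false))
        (Function.update v (b0, β) z (b, true)) (w (b, false)) (w (b, true)) =
        ∏ b ∈ univ.erase b0, R (v (b, false)) (v (b, true)) (w (b, false)) (w (b, true)) := by
      intro z
      refine Finset.prod_congr rfl fun b hb => ?_
      have hne : b ≠ b0 := Finset.ne_of_mem_erase hb
      rw [Function.update_of_ne (by simp [hne]), Function.update_of_ne (by simp [hne])]
    rw [← Finset.mul_prod_erase univ _ (Finset.mem_univ b0), ← Finset.mul_prod_erase univ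
      (fun b => R (Function.update v (b0, β) x (b, false)) (Function.update v (b0, β) x (b, true))
        (w (b, false)) (w (b, true))) (Finset.mem_univ b0),
      ← Finset.mul_prod_erase univ
      (fun b => R (Function.update v (b0, β) y (b, false)) (Function.update v (b0, β) y (b, true))
        (w (b, false)) (w (b, true))) (Finset.mem_univ b0), key, key, key, ← add_mul]
    congr 1
    cases β
    · simp only [Function.update_self]
      have h : ∀ z : V, Function.update v (b0, false) z (b0, true) = v (b0, true) := fun z =>
        Function.update_of_ne (by simp) _ _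
      rw [h, h, h, hR.add]
    · simp only [Function.update_self]
      have h : ∀ z : V, Function.update v (b0, true) z (b0, false) = v (b0, false) := fun z =>
        Function.update_of_ne (by simp) _ _
      rw [h, h, h, hR.add2]
  map_update_smul' := by
    intro _ v i t x
    obtain ⟨b0, β⟩ := i
    have key : ∀ z : V, ∏ b ∈ univ.erase b0, R (Function.update v (b0, β) z (b, false))
        (Function.update v (b0, β) z (b, true)) (w (b, false)) (w (b, true)) =
        ∏ b ∈ univ.erase b0, R (v (b, false)) (v (b, true)) (w (b, false)) (w (b, true)) := by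
      intro z
      refine Finset.prod_congr rfl fun b hb => ?_
      have hne : b ≠ b0 := Finset.ne_of_mem_erase hb
      rw [Function.update_of_ne (by simp [hne]), Function.update_of_ne (by simp [hne])]
    rw [← Finset.mul_prod_erase univ _ (Finset.mem_univ b0), ← Finset.mul_prod_erase univ
      (fun b => R (Function.update v (b0, β) x (b, false)) (Function.update v (b0, β) x (b, true))
        (w (b, false)) (w (b, true))) (Finset.mem_univ b0), key, key, smul_eq_mul, ← mul_assoc]
    congr 1
    cases β
    · simp only [Function.update_self]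
      have h : ∀ z : V, Function.update v (b0, false) z (b0, true) = v (b0, true) := fun z =>
        Function.update_of_ne (by simp) _ _
      rw [h, h, hR.smul]
    · simp only [Function.update_self]
      have h : ∀ z : V, Function.update v (b0, true) z (b0, false) = v (b0, false) := fun z =>
        Function.update_of_ne (by simp) _ _
      rw [h, h, hR.smul2]

/-- the double alternating sum of two families of vectors -/
noncomputable def dd (R : V → V → V → V → ℝ) (v w : Fin m × Bool → V) : ℝ :=
  ∑ σ : Equiv.Perm (Fin m × Bool), ∑ τ : Equiv.Perm (Fin m × Bool),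
    ((Equiv.Perm.sign σ : ℤ) : ℝ) * ((Equiv.Perm.sign τ : ℤ) : ℝ) *
      ∏ b : Fin m, R (v (σ (b, false))) (v (σ (b, true))) (w (τ (b, false))) (w (τ (b, true)))

theorem dd_symm {R : V → V → V → V → ℝ} (hR : AlgCurv R) (v w : Fin m × Bool → V) :
    dd R v w = dd R w v := by
  unfold dd
  rw [Finset.sum_comm]
  refine Finset.sum_congr rfl fun σ _ => Finset.sum_congr rfl fun τ _ => ?_
  rw [mul_comm ((Equiv.Perm.sign τ : ℤ) : ℝ)]
  congr 1
  exact Finset.prod_congr rfl fun b _ => by rw [hR.pair]

theorem dd_left {R : V → V → V → V → ℝ} (hR : AlgCurv R)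
    (e : Module.Basis (Fin m × Bool) ℝ V) (v w : Fin m × Bool → V) :
    dd R v w = e.det v * dd R e w := by
  have h1 : ∀ v : Fin m × Bool → V, dd R v w = ∑ τ : Equiv.Perm (Fin m × Bool),
      ((Equiv.Perm.sign τ : ℤ) : ℝ) *
        (MultilinearMap.alternatization (pm hR (w ∘ τ))) v := by
    intro v
    unfold dd
    rw [Finset.sum_comm]
    refine Finset.sum_congr rfl fun τ _ => ?_
    rw [MultilinearMap.alternatization_apply, Finset.mul_sum]
    refine Finset.sum_congr rfl fun σ _ => ?_
    rw [MultilinearMap.domDomCongr_apply]
    simp only [pm, MultilinearMap.coe_mk, Function.comp]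
    rw [Units.smul_def, zsmul_eq_mul]
    ring
  have h2 : ∀ τ : Equiv.Perm (Fin m × Bool),
      (MultilinearMap.alternatization (pm hR (w ∘ τ))) v =
      (MultilinearMap.alternatization (pm hR (w ∘ τ))) e * e.det v := by
    intro τ
    have h3 := AlternatingMap.eq_smul_basis_det (e := e)
      (MultilinearMap.alternatization (pm hR (w ∘ τ)))
    have h4 := congrArg (fun f => f v) h3
    simpa [smul_eq_mul] using h4
  rw [h1, h1, Finset.mul_sum]
  refine Finset.sum_congr rfl fun τ _ => ?_
  rw [h2]
  ring

theorem dd_det {R : V → V → V → V → ℝ} (hR : AlgCurv R)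
    (e : Module.Basis (Fin m × Bool) ℝ V) (v : Fin m × Bool → V) :
    dd R v v = e.det v ^ 2 * dd R e e := by
  rw [dd_left hR e v v, dd_symm hR (e : Fin m × Bool → V) v, dd_left hR e v e]
  ring

theorem gbc_dd (e : OrthonormalBasis (Fin m × Bool) ℝ V) (R : V → V → V → V → ℝ) :
    gbc e R = 1 / ((8 * Real.pi) ^ m * m.factorial) * dd R e e := rfl

/-- **Change of frame.** -/
theorem gbc_pull {V' : Type} [NormedAddCommGroup V'] [InnerProductSpace ℝ V']
    (e : OrthonormalBasis (Fin m × Bool) ℝ V) (f : OrthonormalBasis (Fin m × Bool) ℝ V')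
    {R : V → V → V → V → ℝ} (hR : AlgCurv R) (L : V' →ₗ[ℝ] V) :
    gbc f (pull R L) = e.toBasis.det (fun i => L (f i)) ^ 2 * gbc e R := by
  have h1 : gbc f (pull R L) = 1 / ((8 * Real.pi) ^ m * m.factorial) *
      dd R (fun i => L (f i)) (fun i => L (f i)) := rfl
  have h2 := dd_det hR e.toBasis (fun i => L (f i))
  rw [OrthonormalBasis.coe_toBasis] at h2
  rw [h1, h2, gbc_dd]
  ring

end Pool.Agent.Q61.HP
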